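import Mathlib
import Pool.Agent.Q247.IG.Auto
import Pool.Agent.H391R2.T4.Sym

/-!
# Normal subgroups which determine homomorphisms: group theory
-/

set_option autoImplicit false

namespace Pool.Agent.H96S.NS

open Pool.Agent.H391R2 Pool.Agent.H391R2.T4

section copy

variable {H X Γ : Type} [Group H] [Group X] [Group Γ]

/-- If the kernel of `β` has trivial centre and a copy of it is normal in `X`, on which `X` acts (also
on `Γ`) as `H` does, then `X` maps onto `H`. -/
theorem surj_of_copy (β : H →* Γ) (hc : ∀ c ∈ β.ker, (∀ d ∈ β.ker, c * d * c⁻¹ = d) → c = 1)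
    (r : X →* Γ) (hr : ∀ h : H, ∃ σ : X, r σ = β h) (N : Subgroup X)
    (hN : ∀ x ∈ N, r x = 1) (e : β.ker ≃* N)
    (hσ : ∀ σ : X, ∃ h : H, r σ = β h ∧
      ∀ c : β.ker, σ * (e c : X) * σ⁻¹ = (e (MulAut.conjNormal h c) : X)) :
    ∃ Ψ : X →* H, Function.Surjective Ψ ∧ ∀ σ, β (Ψ σ) = r σ := by
  have huniq : ∀ h h' : H, β h = β h' →
      (∀ c : β.ker, (MulAut.conjNormal h c : β.ker) = MulAut.conjNormal h' c) → h = h' := by
    intro h h' h1 h2
    have h3 : h⁻¹ * h' ∈ β.ker := by rw [MonoidHom.mem_ker, map_mul, map_inv, h1, inv_mul_cancel]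
    have h4 : h⁻¹ * h' = 1 := by
      apply hc _ h3
      intro d hd
      have h5 := congrArg (fun z : β.ker => (z : H)) (h2 ⟨d, hd⟩)
      simp only [MulAut.conjNormal_apply] at h5
      calc h⁻¹ * h' * d * (h⁻¹ * h')⁻¹ = h⁻¹ * (h' * d * h'⁻¹) * h := by group
        _ = h⁻¹ * (h * d * h⁻¹) * h := by rw [h5]
        _ = d := by group
    exact (inv_mul_eq_one.1 h4)
  choose f hf1 hf2 using hσ
  have hmul : ∀ σ τ : X, f (σ * τ) = f σ * f τ := by
    intro σ τ
    apply huniq
    · rw [← hf1, map_mul, map_mul, hf1, hf1]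
    · intro c
      apply e.injective
      apply Subtype.ext
      rw [← hf2, map_mul, MulAut.mul_apply, ← hf2, ← hf2]
      group
  let Ψ : X →* H := MonoidHom.mk' f hmul
  have hΨ : ∀ c : β.ker, Ψ (e c : X) = c := by
    intro c
    apply huniq
    · change β (f _) = _
      rw [← hf1, hN _ (e c).2]
      exact c.2.symm
    · intro d
      apply e.injective
      apply Subtype.ext
      change ((e (MulAut.conjNormal (f _) d) : N) : X) = _
      rw [← hf2]
      have h5 : (MulAut.conjNormal (c : H) d : β.ker) = c * d * c⁻¹ := by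
        apply Subtype.ext
        rw [MulAut.conjNormal_apply]
        rfl
      rw [h5, map_mul, map_mul, map_inv]
      rfl
  refine ⟨Ψ, ?_, fun σ => (hf1 σ).symm⟩
  intro h
  obtain ⟨σ, hσ⟩ := hr h
  have h1 : h * (Ψ σ)⁻¹ ∈ β.ker := by
    rw [MonoidHom.mem_ker, map_mul, map_inv]
    change β h * (β (f σ))⁻¹ = 1
    rw [← hf1, hσ, mul_inv_cancel]
  refine ⟨(e ⟨_, h1⟩ : X) * σ, ?_⟩
  rw [map_mul, hΨ]
  change h * (Ψ σ)⁻¹ * Ψ σ = h
  group

end copy

section cover

variable (E : Type) [Group E]

/-- The regular wreath product with the symmetric group of degree three. -/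
abbrev Cov : Type := (E → Equiv.Perm (Fin 3)) ⋊[mulAutArrow] E

theorem perm3_cent (f : Equiv.Perm (Fin 3)) (h : ∀ g, f * g * f⁻¹ = g) : f = 1 := by
  revert f; decide

theorem cov_left (a b : Cov E) (x : E) : (a * b).left x = a.left x * b.left (a.right⁻¹ * x) := rfl

theorem cov_right (a b : Cov E) : (a * b).right = a.right * b.right := rfl

variable {E}

/-- The elements of the base commute only with the elements ... -/
theorem cov_cent (w : Cov E) (h : ∀ t : E → Equiv.Perm (Fin 3),
    w * SemidirectProduct.inl t = SemidirectProduct.inl t * w) : w = 1 := by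
  classical
  have h1 : w.right = 1 := by
    by_contra hne
    have h2 := congrArg (fun z : Cov E => z.left 1)
      (h (Pi.mulSingle 1 (Equiv.swap 0 1)))
    simp only [cov_left, SemidirectProduct.left_inl, SemidirectProduct.right_inl] at h2
    rw [Pi.mulSingle_eq_same, Pi.mulSingle_eq_of_ne (by simpa using hne)] at h2
    rw [inv_one, mul_one, mul_one] at h2
    have h3 : Equiv.swap (0 : Fin 3) 1 = 1 := by
      have h4 : Equiv.swap (0 : Fin 3) 1 * w.left 1 = 1 * w.left 1 := by rw [one_mul]; exact h2.symm
      exact mul_right_cancel h4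
    exact absurd h3 (by decide)
  apply SemidirectProduct.ext
  · funext x
    change w.left x = 1
    apply perm3_cent
    intro g
    have h2 := congrArg (fun z : Cov E => z.left x) (h (fun _ => g))
    simp only [cov_left, SemidirectProduct.left_inl, SemidirectProduct.right_inl] at h2
    rw [inv_one, one_mul] at h2
    rw [h2]; group
  · exact h1

theorem cov_ker {Γ : Type} [Group Γ] (α : E →* Γ) (w : Cov E)
    (h : ∀ d ∈ (α.comp (SemidirectProduct.rightHom (φ := mulAutArrow)
      (N := E → Equiv.Perm (Fin 3)) (G := E))).ker, w * d * w⁻¹ = d) : w = 1 := by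
  apply cov_cent
  intro t
  have h1 := h (SemidirectProduct.inl t) (by
    rw [MonoidHom.mem_ker, MonoidHom.comp_apply, SemidirectProduct.rightHom_inl, map_one])
  calc w * SemidirectProduct.inl t = (w * SemidirectProduct.inl t * w⁻¹) * w := by group
    _ = _ := by rw [h1]

instance finite_cov [Finite E] : Finite (Cov E) := by
  apply Finite.of_injective (fun w : Cov E => (w.left, w.right))
  intro a b h
  simp only [Prod.mk.injEq] at h
  exact SemidirectProduct.ext h.1 h.2

end cover

section sym

variable {Γ : Type} [Group Γ]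

/-- The symmetric fibre powers of the regular wreath product have trivial centre. -/
theorem sym_cent (n : ℕ) (z : SymEP (SemidirectProduct.rightHom (φ := mulAutArrow)
      (N := Γ → Equiv.Perm (Fin 3)) (G := Γ)) n)
    (hn : 0 < n) (hz : ∀ y, z * y = y * z) : z = 1 := by
  classical
  -- the elements of the base
  let b : (Fin n → Γ → Equiv.Perm (Fin 3)) → SymEP (SemidirectProduct.rightHom (φ := mulAutArrow)
      (N := Γ → Equiv.Perm (Fin 3)) (G := Γ)) n := fun t =>
    ⟨(⟨fun i => SemidirectProduct.inl (t i), 1⟩, 1), fun i => by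
      change SemidirectProduct.rightHom (SemidirectProduct.inl (t i)) = 1
      rw [SemidirectProduct.rightHom_inl]⟩
  have key : ∀ (t : Fin n → Γ → Equiv.Perm (Fin 3)) (i : Fin n),
      z.1.1.left i * SemidirectProduct.inl (t (z.1.1.right⁻¹ i)) =
        SemidirectProduct.inl (t i) * z.1.1.left i := by
    intro t i
    have h1 := congrArg (fun y => y.1.1.left i) (hz (b t))
    exact h1
  have hr : z.1.1.right = 1 := by
    apply Equiv.ext
    intro i
    by_contra hne
    change z.1.1.right i ≠ i at hne
    have h1 := key (Pi.mulSingle i (fun _ => Equiv.swap 0 1)) i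
    rw [Pi.mulSingle_eq_same, Pi.mulSingle_eq_of_ne (by
      intro h2
      apply hne
      conv_lhs => rw [← h2]
      exact Equiv.apply_symm_apply _ _), map_one, mul_one] at h1
    have h2 : SemidirectProduct.inl (φ := mulAutArrow) (G := Γ)
        (fun _ : Γ => Equiv.swap (0 : Fin 3) 1) = 1 := by
      apply mul_right_cancel (b := z.1.1.left i)
      rw [one_mul]; exact h1.symm
    have h3 := congrArg (fun w : Cov Γ => w.left 1) h2
    exact absurd h3 (by
      change ¬ (Equiv.swap (0 : Fin 3) 1 = 1)
      decide)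
  have hl : ∀ i, z.1.1.left i = 1 := by
    intro i
    apply cov_cent
    intro t
    have h1 := key (fun _ => t) i
    exact h1
  apply Subtype.ext
  apply Prod.ext
  · apply SemidirectProduct.ext
    · funext i
      exact hl i
    · exact hr
  · have h1 := z.2 ⟨0, hn⟩
    rw [hl] at h1
    exact h1.symm

end sym

end Pool.Agent.H96S.NS
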