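import Mathlib
import Pool.Agent.Q247.IG.Auto

/-!
# Rigid groups over a quotient
-/

set_option autoImplicit false

namespace Pool.Agent.H96S.NS

open Pool.Agent.Q247.IG

/-- The rigid group of `G` with its projection: if it is normal in `X` then the projection extends
to `X`. -/
theorem rigid_ext (G : Type) [Group G] [Finite G] :
    ∃ (R : Type) (_ : Group R) (_ : Finite R) (p : R →* G) (l : G →* R), (∀ g, p (l g) = g) ∧
      ∀ (X : Type) [Group X] (N : Subgroup X) [N.Normal] (e : R ≃* N),
        ∃ f : X →* G, (∀ h, f (e h : X) = p h) ∧ Subgroup.centralizer (N : Set X) ≤ f.ker := by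
  classical
  haveI := Fintype.ofFinite G
  refine ⟨H G, inferInstance, inferInstance,
    (SemidirectProduct.rightHom.comp (H G).subtype),
    ⟨⟨lift, rfl⟩, fun a b => ?_⟩, fun g => rfl, ?_⟩
  · apply Subtype.ext
    change (⟨1, a * b⟩ : W G) = ⟨1, a⟩ * ⟨1, b⟩
    apply SemidirectProduct.ext
    · change (1 : J G → S G) = 1 * _
      rw [one_mul]
      exact (map_one _).symm
    · rfl
  rintro X _ N _ e
  let f : X →* G := (Phi.comp (MulAut.congr e.symm).toMonoidHom).comp (MulAut.conjNormal (H := N))
  have hf : ∀ h : H G, f (e h : X) = h.1.right := by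
    intro h
    have h1 : (MulAut.congr e.symm) (MulAut.conjNormal (H := N) (e h : X)) = MulAut.conj h := by
      apply MulEquiv.ext
      intro k
      simp only [MulAut.congr, MulEquiv.coe_mk, Equiv.coe_fn_mk, MulEquiv.trans_apply,
        MulEquiv.symm_symm, MulAut.conj_apply]
      apply e.injective
      rw [MulEquiv.apply_symm_apply]
      apply Subtype.ext
      rw [MulAut.conjNormal_apply]
      simp
    change Phi ((MulAut.congr e.symm) (MulAut.conjNormal (H := N) (e h : X))) = _
    rw [h1, phi_conj]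
  refine ⟨f, fun h => hf h, ?_⟩
  intro x hx
  rw [MonoidHom.mem_ker]
  have h1 : MulAut.conjNormal (H := N) x = 1 := by
    apply MulEquiv.ext
    intro n
    apply Subtype.ext
    rw [MulAut.conjNormal_apply, MulAut.one_apply]
    have := (Subgroup.mem_centralizer_iff.1 hx) n n.2
    rw [← this]; group
  change (Phi.comp (MulAut.congr e.symm).toMonoidHom) (MulAut.conjNormal (H := N) x) = 1
  rw [h1, map_one]

/-- Two homomorphisms to a group with trivial centre which agree on a normal subgroup mapping onto it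
agree. -/
theorem agree {X Γ : Type} [Group X] [Group Γ] (hΓ : ∀ z : Γ, (∀ y, z * y = y * z) → z = 1)
    (a r : X →* Γ) (N : Subgroup X) [N.Normal] (h : ∀ n ∈ N, a n = r n)
    (hs : ∀ y : Γ, ∃ n ∈ N, r n = y) (x : X) : a x = r x := by
  have h1 : (r x)⁻¹ * a x = 1 := by
    apply hΓ
    intro y
    obtain ⟨n, hn, rfl⟩ := hs y
    have h2 : x * n * x⁻¹ ∈ N := Subgroup.Normal.conj_mem inferInstance n hn x
    have h3 := h _ h2
    rw [map_mul, map_mul, map_mul, map_mul, map_inv, map_inv, h n hn] at h3
    calc (r x)⁻¹ * a x * r n = (r x)⁻¹ * (a x * r n * (a x)⁻¹) * a x := by group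
      _ = (r x)⁻¹ * (r x * r n * (r x)⁻¹) * a x := by rw [h3]
      _ = r n * ((r x)⁻¹ * a x) := by group
  exact (inv_mul_eq_one.1 h1).symm

end Pool.Agent.H96S.NS
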