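import Mathlib
import Pool.Agent.H391R2.T4.DegN
import Pool.Agent.H96S.NS.Grp
import Pool.Agent.H96S.NS.Rig

/-!
# Solutions of embedding problems from surjections of the Galois group
-/

set_option autoImplicit false

namespace Pool.Agent.H96S.NS

open Pool.Agent.H391R2 Pool.Agent.H391R2.T4

section

variable {K L E T F : Type} [Field K] [Field L] [Algebra K L] [Group E] [Field T] [Algebra K T]
  [Field F] [Algebra T F] [Algebra L F] [Algebra K F] [IsScalarTower K T F] [IsScalarTower K L F]
  [FiniteDimensional T F] [IsGalois T F]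

theorem sol_of_surj (α : E →* (L ≃ₐ[K] L)) (reg : Prop)
    (Ψ : (F ≃ₐ[T] F) →* E) (hs : Function.Surjective Ψ)
    (hΨ : ∀ (σ : F ≃ₐ[T] F) (x : L), σ (algebraMap L F x) = algebraMap L F (α (Ψ σ) x))
    (hreg : reg → ∀ y : F, (∀ σ, Ψ σ = 1 → σ y = y) → IsAlgebraic L y →
      y ∈ Set.range (algebraMap L F)) :
    SolOver K L E α T reg := by
  let F' : IntermediateField T F := IntermediateField.fixedField Ψ.ker
  have hL : ∀ x : L, algebraMap L F x ∈ F' := by
    intro x
    rw [IntermediateField.mem_fixedField_iff]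
    intro σ hσ
    rw [hΨ, MonoidHom.mem_ker.1 hσ, map_one]
    rfl
  let i : L →+* F' := (algebraMap L F).codRestrict F' hL
  let _ : Algebra L F' := i.toAlgebra
  have hi : ∀ x : L, ((algebraMap L F' x : F') : F) = algebraMap L F x := fun x => rfl
  have ht : IsScalarTower K L F' := by
    apply IsScalarTower.of_algebraMap_eq
    intro x
    apply Subtype.ext
    change algebraMap K F x = algebraMap L F (algebraMap K L x)
    exact IsScalarTower.algebraMap_apply K L F x
  have hg : IsGalois T F' := IsGalois.of_fixedField_normal_subgroup Ψ.ker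
  have hK : IsScalarTower K T F' := by
    apply IsScalarTower.of_algebraMap_eq
    intro x
    apply Subtype.ext
    change algebraMap K F x = algebraMap T F (algebraMap K T x)
    exact IsScalarTower.algebraMap_apply K T F x
  let γ : (F' ≃ₐ[T] F') ≃* E := (IsGalois.normalAutEquivQuotient Ψ.ker).symm.trans
    (QuotientGroup.quotientKerEquivOfSurjective Ψ hs)
  refine ⟨F', inferInstance, inferInstance, inferInstance, inferInstance, hK, ht, inferInstance,
    hg, γ, ?_, ?_⟩
  · intro τ x
    obtain ⟨q, rfl⟩ := (IsGalois.normalAutEquivQuotient Ψ.ker).surjective τ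
    obtain ⟨σ, rfl⟩ := QuotientGroup.mk_surjective q
    have h1 : γ ((IsGalois.normalAutEquivQuotient Ψ.ker) (QuotientGroup.mk σ)) = Ψ σ := by
      change (QuotientGroup.quotientKerEquivOfSurjective Ψ hs)
        ((IsGalois.normalAutEquivQuotient Ψ.ker).symm _) = _
      rw [MulEquiv.symm_apply_apply]
      rfl
    rw [h1]
    apply Subtype.ext
    rw [hi, ← hΨ, IsGalois.normalAutEquivQuotient_apply]
    exact AlgEquiv.restrictNormal_commutes σ F' (algebraMap L F' x)
  · intro hr y hy
    have h1 : IsAlgebraic L (y : F) := by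
      have h2 : IsScalarTower L F' F := IsScalarTower.of_algebraMap_eq (fun x => rfl)
      exact hy.algebraMap
    obtain ⟨x, hx⟩ := hreg hr _ (fun σ hσ => (IntermediateField.mem_fixedField_iff _ _).1 y.2 σ hσ) h1
    exact ⟨x, Subtype.ext hx⟩

end

end Pool.Agent.H96S.NS
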