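import Mathlib
import Pool.Agent.H391R2.T4.Hil
import Pool.Agent.H96S.WP.Sym2
import Pool.Agent.H96S.NS.Fld

/-!
# Solutions from normal subgroups, and subnormal solutions
-/

set_option autoImplicit false

namespace Pool.Agent.H96S.NS

open Pool.Agent.H391R2 Pool.Agent.H391R2.T4

section res

variable {K L T F : Type} [Field K] [Field L] [Algebra K L] [Field T] [Algebra K T]
  [Field F] [Algebra T F] [Algebra L F] [Algebra K F] [IsScalarTower K T F] [IsScalarTower K L F]

/-- Restriction to `L`. -/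
noncomputable def resL (K L T F : Type) [Field K] [Field L] [Algebra K L] [Field T] [Algebra K T]
    [Field F] [Algebra T F] [Algebra L F] [Algebra K F] [IsScalarTower K T F]
    [IsScalarTower K L F] [Normal K L] : (F ≃ₐ[T] F) →* (L ≃ₐ[K] L) :=
  (AlgEquiv.restrictNormalHom L).comp (AlgEquiv.restrictScalarsHom K)

theorem resL_apply [Normal K L] (σ : F ≃ₐ[T] F) (x : L) :
    algebraMap L F (resL K L T F σ x) = σ (algebraMap L F x) :=
  AlgEquiv.restrictNormal_commutes (AlgEquiv.restrictScalarsHom K σ) L x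

theorem resL_eq [Normal K L] (σ : F ≃ₐ[T] F) (ρ : L ≃ₐ[K] L)
    (h : ∀ x, σ (algebraMap L F x) = algebraMap L F (ρ x)) : resL K L T F σ = ρ := by
  apply AlgEquiv.ext
  intro x
  apply (algebraMap L F).injective
  rw [resL_apply, h]

theorem resL_surj [FiniteDimensional K L] [IsGalois K L] [FiniteDimensional T F] [IsGalois T F]
    (hT : ∀ x : L, algebraMap L F x ∈ Set.range (algebraMap T F) →
      x ∈ Set.range (algebraMap K L)) : Function.Surjective (resL K L T F) := by
  have h1 : IntermediateField.fixedField (resL K L T F).range = (⊥ : IntermediateField K L) := by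
    rw [eq_bot_iff]
    intro x hx
    rw [IntermediateField.mem_fixedField_iff] at hx
    rw [IntermediateField.mem_bot]
    apply hT
    have h2 : algebraMap L F x ∈ (⊥ : IntermediateField T F) := by
      rw [← IsGalois.fixedField_top, IntermediateField.mem_fixedField_iff]
      intro σ _
      rw [← resL_apply (K := K), hx _ ⟨σ, rfl⟩]
    exact IntermediateField.mem_bot.1 h2
  have h3 : (resL K L T F).range = ⊤ := by
    rw [← IntermediateField.fixingSubgroup_fixedField (resL K L T F).range, h1,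
      IntermediateField.fixingSubgroup_bot]
  exact MonoidHom.range_eq_top.1 h3

theorem hT_self {K L F : Type} [Field K] [Field L] [Algebra K L]
    [Field F] [Algebra K F] [Algebra L F] [IsScalarTower K L F]
    (x : L) (h : algebraMap L F x ∈ Set.range (algebraMap K F)) :
    x ∈ Set.range (algebraMap K L) := by
  obtain ⟨y, hy⟩ := h
  refine ⟨y, (algebraMap L F).injective ?_⟩
  rw [← hy, ← IsScalarTower.algebraMap_apply]

theorem hT_rat {K L F : Type} [Field K] [Field L] [Algebra K L]
    [Field F] [Algebra (RatFunc K) F] [Algebra K F] [Algebra L F] [IsScalarTower K (RatFunc K) F]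
    [IsScalarTower K L F] [FiniteDimensional K L]
    (x : L) (h : algebraMap L F x ∈ Set.range (algebraMap (RatFunc K) F)) :
    x ∈ Set.range (algebraMap K L) := by
  obtain ⟨y, hy⟩ := h
  have h1 : IsAlgebraic K x := Algebra.IsAlgebraic.isAlgebraic x
  have h2 : IsAlgebraic K (algebraMap L F x) := h1.algebraMap
  rw [← hy] at h2
  have h3 : IsAlgebraic K y :=
    (isAlgebraic_algebraMap_iff (algebraMap (RatFunc K) F).injective).1 h2
  have h4 : ∃ c, y = RatFunc.C c := by
    by_contra hc
    exact (RatFunc.transcendental_of_ne_C y hc) h3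
  obtain ⟨c, rfl⟩ := h4
  refine ⟨c, (algebraMap L F).injective ?_⟩
  rw [← hy, ← IsScalarTower.algebraMap_apply, ← RatFunc.algebraMap_eq_C,
    ← IsScalarTower.algebraMap_apply]

end res

section main

variable {K L E T F : Type} [Field K] [Field L] [Algebra K L] [FiniteDimensional K L]
  [IsGalois K L] [Group E] [Field T] [Algebra K T]
  [Field F] [Algebra T F] [Algebra L F] [Algebra K F] [IsScalarTower K T F] [IsScalarTower K L F]
  [FiniteDimensional T F] [IsGalois T F]

/-- A normal copy of the kernel of the cover gives a solution. -/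
theorem sol_of_copy (α : E →* (L ≃ₐ[K] L)) (reg : Prop)
    (hT : ∀ x : L, algebraMap L F x ∈ Set.range (algebraMap T F) → x ∈ Set.range (algebraMap K L))
    (N : Subgroup (F ≃ₐ[T] F))
    (hN : ∀ σ ∈ N, ∀ x : L, σ (algebraMap L F x) = algebraMap L F x)
    (e : (α.comp (SemidirectProduct.rightHom (φ := mulAutArrow)
      (N := E → Equiv.Perm (Fin 3)) (G := E))).ker ≃* N)
    (hσ : ∀ σ : F ≃ₐ[T] F, ∃ h : Cov E,
      (∀ x : L, σ (algebraMap L F x) = algebraMap L F
        ((α.comp (SemidirectProduct.rightHom (φ := mulAutArrow)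
          (N := E → Equiv.Perm (Fin 3)) (G := E))) h x)) ∧
      ∀ c, σ * (e c : F ≃ₐ[T] F) * σ⁻¹ = (e (MulAut.conjNormal h c) : F ≃ₐ[T] F))
    (hreg : reg → ∀ y : F, IsAlgebraic L y → y ∈ Set.range (algebraMap L F)) :
    SolOver K L E α T reg := by
  obtain ⟨Ψ, hs, hΨ⟩ := surj_of_copy (α.comp (SemidirectProduct.rightHom (φ := mulAutArrow)
      (N := E → Equiv.Perm (Fin 3)) (G := E))) (fun c _ h => cov_ker α c h)
    (resL K L T F) (fun h => resL_surj hT _) N
    (fun x hx => resL_eq _ _ (fun y => hN x hx y)) e (fun σ => by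
      obtain ⟨h, h1, h2⟩ := hσ σ
      exact ⟨h, resL_eq _ _ h1, h2⟩)
  refine sol_of_surj α reg (SemidirectProduct.rightHom.comp Ψ) ?_ ?_ (fun h y _ => hreg h y)
  · intro x
    obtain ⟨y, rfl⟩ := SemidirectProduct.rightHom_surjective (φ := mulAutArrow)
      (N := E → Equiv.Perm (Fin 3)) (G := E) x
    obtain ⟨z, rfl⟩ := hs y
    exact ⟨z, rfl⟩
  · intro σ x
    rw [← resL_apply (K := K), ← hΨ]
    rfl

omit [FiniteDimensional K L] [FiniteDimensional T F] [IsGalois T F] in
/-- A normal subgroup which lies over `L` as the rigid group gives a solution if the group of `L` has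
trivial centre. -/
theorem surj_of_lift (α : E →* (L ≃ₐ[K] L)) (hα : Function.Surjective α)
    (hc : ∀ z : L ≃ₐ[K] L, (∀ y, z * y = y * z) → z = 1)
    {R : Type} [Group R] (p : R →* E) (hp : Function.Surjective p)
    (hR : ∀ (X : Type) [Group X] (N : Subgroup X) [N.Normal] (e : R ≃* N),
        ∃ f : X →* E, (∀ h, f (e h : X) = p h) ∧ Subgroup.centralizer (N : Set X) ≤ f.ker)
    (N : Subgroup (F ≃ₐ[T] F)) [N.Normal] (e : R ≃* N)
    (he : ∀ h (x : L), (e h : F ≃ₐ[T] F) (algebraMap L F x) = algebraMap L F (α (p h) x)) :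
    ∃ f : (F ≃ₐ[T] F) →* E, Function.Surjective f ∧ ∀ (σ : F ≃ₐ[T] F) (x : L),
      σ (algebraMap L F x) = algebraMap L F (α (f σ) x) := by
  obtain ⟨f, hf, -⟩ := hR _ N e
  refine ⟨f, fun g => ?_, fun σ x => ?_⟩
  · obtain ⟨h, rfl⟩ := hp g
    exact ⟨_, hf h⟩
  · have hr : ∀ h, resL K L T F (e h : F ≃ₐ[T] F) = α (p h) := fun h => resL_eq _ _ (he h)
    have h1 := agree hc (α.comp f) (resL K L T F) N (fun n hn => by
      obtain ⟨h, hh⟩ := e.surjective ⟨n, hn⟩
      have h2 : (e h : F ≃ₐ[T] F) = n := congrArg Subtype.val hh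
      rw [← h2, MonoidHom.comp_apply, hf, hr]) (fun y => by
      obtain ⟨g, rfl⟩ := hα y
      obtain ⟨h, rfl⟩ := hp g
      exact ⟨_, (e h).2, hr h⟩) σ
    rw [← resL_apply (K := K), ← h1]
    rfl

end main

end Pool.Agent.H96S.NS
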