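import Mathlib
import Pool.Agent.H96S.NS.Main

/-!
# Subnormal copies of the kernel
-/

set_option autoImplicit false

namespace Pool.Agent.H96S.NS

open Pool.Agent.H391R2 Pool.Agent.H391R2.T4

section sub

variable {E Γ : Type} [Group E] [Group Γ] (α : E →* Γ) {n : ℕ} (i₀ : Fin n)

/-- The copy of the kernel at one coordinate. -/
def iota : α.ker →* SymEP α n where
  toFun c := ⟨(⟨Pi.mulSingle (M := fun _ : Fin n => E) i₀ (c : E), 1⟩, 1), fun i => by
    change α (Pi.mulSingle (M := fun _ : Fin n => E) i₀ (c : E) i) = 1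
    by_cases h : i = i₀
    · subst h; rw [Pi.mulSingle_eq_same]; exact c.2
    · rw [Pi.mulSingle_eq_of_ne h, map_one]⟩
  map_one' := by
    apply Subtype.ext
    apply Prod.ext
    · apply SemidirectProduct.ext
      · change Pi.mulSingle (M := fun _ : Fin n => E) i₀ ((1 : α.ker) : E) = 1
        rw [Subgroup.coe_one, Pi.mulSingle_one]
      · rfl
    · rfl
  map_mul' a b := by
    apply Subtype.ext
    apply Prod.ext
    · apply SemidirectProduct.ext
      · change Pi.mulSingle (M := fun _ : Fin n => E) i₀ ((a * b : α.ker) : E) = Pi.mulSingle (M := fun _ : Fin n => E) i₀ (a : E) * _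
        rw [Subgroup.coe_mul, Pi.mulSingle_mul]
        rfl
      · rfl
    · change (1 : Γ) = 1 * 1
      rw [one_mul]

theorem iota_left (c : α.ker) (i : Fin n) :
    (iota α i₀ c).1.1.left i = Pi.mulSingle (M := fun _ : Fin n => E) i₀ (c : E) i := rfl

theorem iota_inj : Function.Injective (iota α i₀) := by
  intro a b h
  have h1 := congrArg (fun z => z.1.1.left i₀) h
  simp only [iota_left, Pi.mulSingle_eq_same] at h1
  exact Subtype.ext h1

/-- The conjugates of the copy by the elements which fix the coordinate. -/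
theorem conj_iota (z : SymEP α n) (hz : z.1.1.right i₀ = i₀) (c : α.ker) :
    z * iota α i₀ c * z⁻¹ = iota α i₀ (MulAut.conjNormal (z.1.1.left i₀) c) := by
  apply Subtype.ext
  apply Prod.ext
  · apply SemidirectProduct.ext
    · funext i
      change ((z.1.1 * (iota α i₀ c).1.1) * z.1.1⁻¹).left i = _
      rw [wr_mul_left, wr_mul_left, wr_inv_left, wr_mul_right]
      change z.1.1.left i * (iota α i₀ c).1.1.left (z.1.1.right⁻¹ i) *
        (z.1.1.left (z.1.1.right ((z.1.1.right * 1)⁻¹ i)))⁻¹ = _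
      have h1 : z.1.1.right ((z.1.1.right * 1)⁻¹ i) = i := by
        rw [mul_one]; exact Equiv.apply_symm_apply _ _
      rw [h1, iota_left]
      change _ = Pi.mulSingle (M := fun _ : Fin n => E) i₀ ((MulAut.conjNormal (z.1.1.left i₀) c : α.ker) : E) i
      rw [MulAut.conjNormal_apply]
      by_cases h : i = i₀
      · subst h
        have h2 : z.1.1.right⁻¹ i = i := by
          rw [Equiv.Perm.inv_eq_iff_eq]; exact hz.symm
        rw [h2, Pi.mulSingle_eq_same, Pi.mulSingle_eq_same]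
      · have h2 : z.1.1.right⁻¹ i ≠ i₀ := by
          intro h3
          rw [Equiv.Perm.inv_eq_iff_eq, hz] at h3
          exact h h3
        rw [Pi.mulSingle_eq_of_ne h, Pi.mulSingle_eq_of_ne h2, mul_one, mul_inv_cancel]
    · change z.1.1.right * 1 * z.1.1.right⁻¹ = 1
      rw [mul_one, mul_inv_cancel]
  · change z.1.2 * 1 * z.1.2⁻¹ = 1
    rw [mul_one, mul_inv_cancel]

/-- The elements which normalise the copy act as elements of `E`. -/
theorem norm_iota (z : SymEP α n) (hz : ∀ c, z * iota α i₀ c * z⁻¹ ∈ (iota α i₀).range)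
    (c : α.ker) : z * iota α i₀ c * z⁻¹ = iota α i₀ (MulAut.conjNormal (z.1.1.left i₀) c) := by
  by_cases hr : z.1.1.right i₀ = i₀
  · exact conj_iota α i₀ z hr c
  · have hker : ∀ d : α.ker, d = 1 := by
      intro d
      obtain ⟨d', hd'⟩ := hz d
      have h1 := congrArg (fun y => y.1.1.left (z.1.1.right i₀)) hd'
      change (iota α i₀ d').1.1.left (z.1.1.right i₀) =
        ((z.1.1 * (iota α i₀ d).1.1) * z.1.1⁻¹).left (z.1.1.right i₀) at h1
      rw [wr_mul_left, wr_mul_left, wr_inv_left, wr_mul_right, iota_left,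
        Pi.mulSingle_eq_of_ne hr] at h1
      change 1 = z.1.1.left (z.1.1.right i₀) *
        (iota α i₀ d).1.1.left (z.1.1.right⁻¹ (z.1.1.right i₀)) *
        (z.1.1.left (z.1.1.right ((z.1.1.right * 1)⁻¹ (z.1.1.right i₀))))⁻¹ at h1
      have h2 : z.1.1.right⁻¹ (z.1.1.right i₀) = i₀ := Equiv.symm_apply_apply _ _
      have h3 : z.1.1.right ((z.1.1.right * 1)⁻¹ (z.1.1.right i₀)) = z.1.1.right i₀ := by
        rw [mul_one, h2]
      rw [h3, h2, iota_left, Pi.mulSingle_eq_same] at h1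
      apply Subtype.ext
      have h4 : (z.1.1.left (z.1.1.right i₀)) * (d : E) = z.1.1.left (z.1.1.right i₀) := by
        rw [← mul_inv_eq_one]; exact h1.symm
      exact mul_eq_left.1 h4
    have h5 : c = 1 := hker c
    subst h5
    rw [map_one, map_one, map_one, mul_one, mul_inv_cancel]

/-- The power of the kernel. -/
def Mbase (α : E →* Γ) (n : ℕ) : Subgroup (SymEP α n) where
  carrier := {z | z.1.1.right = 1 ∧ z.1.2 = 1}
  one_mem' := ⟨rfl, rfl⟩
  mul_mem' := by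
    rintro a b ⟨h1, h2⟩ ⟨h3, h4⟩
    refine ⟨?_, ?_⟩
    · change a.1.1.right * b.1.1.right = 1
      rw [h1, h3, one_mul]
    · change a.1.2 * b.1.2 = 1
      rw [h2, h4, one_mul]
  inv_mem' := by
    rintro a ⟨h1, h2⟩
    refine ⟨?_, ?_⟩
    · change a.1.1.right⁻¹ = 1
      rw [h1, inv_one]
    · change a.1.2⁻¹ = 1
      rw [h2, inv_one]

theorem mbase_normal (α : E →* Γ) (n : ℕ) : (Mbase α n).Normal := by
  constructor
  rintro m ⟨h1, h2⟩ z
  refine ⟨?_, ?_⟩
  · change z.1.1.right * m.1.1.right * z.1.1.right⁻¹ = 1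
    rw [h1, mul_one, mul_inv_cancel]
  · change z.1.2 * m.1.2 * z.1.2⁻¹ = 1
    rw [h2, mul_one, mul_inv_cancel]

end sub

section fld

variable {K L E T : Type} [Field K] [Field L] [Algebra K L] [Group E] [Field T] [Algebra K T]

/-- `σ` acts on `L` and on the copy `e` of the kernel as `g` does. -/
def Acts' {K L E T F : Type} [Field K] [Field L] [Algebra K L] [Group E] [Field T]
    [Field F] [Algebra T F] [Algebra L F] (α : E →* (L ≃ₐ[K] L)) {N : Subgroup (F ≃ₐ[T] F)}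
    (e : α.ker ≃* N) (σ : F ≃ₐ[T] F) (g : E) : Prop :=
  (∀ x : L, σ (algebraMap L F x) = algebraMap L F (α g x)) ∧
    ∀ c : α.ker, σ * (e c : F ≃ₐ[T] F) * σ⁻¹ = (e (MulAut.conjNormal g c) : F ≃ₐ[T] F)

omit [Algebra K T] in
theorem sub_of_sym (α : E →* (L ≃ₐ[K] L)) {n : ℕ} (i₀ : Fin n)
    {F : Type} [Field F] [Algebra T F] [Algebra L F]
    (γ : (F ≃ₐ[T] F) ≃* SymEP α n)
    (hγ : ∀ (σ : F ≃ₐ[T] F) (x : L), σ (algebraMap L F x) = algebraMap L F (symProj α n (γ σ) x)) :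
    ∃ N M : Subgroup (F ≃ₐ[T] F), M.Normal ∧ N ≤ M ∧ (∀ m ∈ M, ∀ τ ∈ N, m * τ * m⁻¹ ∈ N) ∧
      (∀ σ ∈ M, ∀ x : L, σ (algebraMap L F x) = algebraMap L F x) ∧
      ∃ e : α.ker ≃* N,
        (∀ σ : F ≃ₐ[T] F, (∀ τ ∈ N, σ * τ * σ⁻¹ ∈ N) → ∃ g, Acts' α e σ g) ∧
        ∀ g : E, ∃ σ : F ≃ₐ[T] F, (∀ τ ∈ N, σ * τ * σ⁻¹ ∈ N) ∧ Acts' α e σ g := by
  let ι : α.ker →* (F ≃ₐ[T] F) := γ.symm.toMonoidHom.comp (iota α i₀)
  have hι : Function.Injective ι := fun a b h => iota_inj α i₀ (γ.symm.injective h)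
  have hγι : ∀ c, γ (ι c) = iota α i₀ c := fun c => γ.apply_symm_apply _
  let e : α.ker ≃* ι.range := MonoidHom.ofInjective hι
  have he : ∀ c, (e c : F ≃ₐ[T] F) = ι c := fun c => rfl
  have hact : ∀ σ : F ≃ₐ[T] F, (∀ τ ∈ ι.range, σ * τ * σ⁻¹ ∈ ι.range) →
      Acts' α e σ ((γ σ).1.1.left i₀) := by
    intro σ hσ
    refine ⟨fun x => ?_, fun c => ?_⟩
    · rw [hγ]
      congr 1
      have h1 : α ((γ σ).1.1.left i₀) = (γ σ).1.2 := (γ σ).2 i₀
      rw [h1]
      rfl
    · apply γ.injective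
      rw [he, he, map_mul, map_mul, map_inv, hγι, hγι]
      apply norm_iota
      intro c
      obtain ⟨d, hd⟩ := hσ _ ⟨c, rfl⟩
      refine ⟨d, ?_⟩
      rw [← hγι, hd, map_mul, map_mul, map_inv, hγι]
  refine ⟨ι.range, (Mbase α n).comap γ.toMonoidHom, ?_, ?_, ?_, ?_, e, ?_, ?_⟩
  · have := mbase_normal α n
    exact Subgroup.Normal.comap this _
  · rintro _ ⟨c, rfl⟩
    change γ (ι c) ∈ Mbase α n
    rw [hγι]
    exact ⟨rfl, rfl⟩
  · rintro m hm _ ⟨c, rfl⟩
    refine ⟨MulAut.conjNormal ((γ m).1.1.left i₀) c, ?_⟩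
    apply γ.injective
    rw [hγι, map_mul, map_mul, map_inv, hγι]
    refine (conj_iota α i₀ (γ m) ?_ c).symm
    have h1 : (γ m).1.1.right = 1 := hm.1
    rw [h1]; rfl
  · intro σ hσ x
    rw [hγ]
    congr 1
    have h1 : (γ σ).1.2 = 1 := hσ.2
    change (γ σ).1.2 x = x
    rw [h1]; rfl
  · intro σ hσ
    exact ⟨_, hact σ hσ⟩
  · intro g
    let z : SymEP α n := ⟨(⟨fun _ => g, 1⟩, α g), fun i => rfl⟩
    have hz : ∀ τ ∈ ι.range, γ.symm z * τ * (γ.symm z)⁻¹ ∈ ι.range := by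
      rintro _ ⟨c, rfl⟩
      refine ⟨MulAut.conjNormal g c, ?_⟩
      apply γ.injective
      rw [hγι, map_mul, map_mul, map_inv, hγι, MulEquiv.apply_symm_apply]
      exact (conj_iota α i₀ z rfl c).symm
    refine ⟨γ.symm z, hz, ?_⟩
    have h1 := hact _ hz
    rw [MulEquiv.apply_symm_apply] at h1
    exact h1

end fld

end Pool.Agent.H96S.NS
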